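import Mathlib

set_option autoImplicit false

open Polynomial

/-! Polynomial identities over a field of characteristic three containing a root of
`t ^ 3 = t - 1` (so containing the field with 27 elements). -/

namespace Pool.Agent.H881R3.L15

variable {R : Type*} [CommRing R]

/-- The first polynomial of degree five. -/
def pa (T X : R) : R := T + X + T*X - T^2*X - T^2*X^2 - X^3 - T*X^3 - T^2*X^3 + X^4 - T^2*X^4 - T*X^5 + T^2*X^5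

/-- The second polynomial of degree five. -/
def pb (T X : R) : R := -T + T*X + T*X^2 + X^3 - T*X^4 - T^2*X^4 + T^2*X^5

def F1 (X : R) : R := X + X^7 + X^9
def G1 (X : R) : R := -1 + X^4 + X^6
def F2 (T X : R) : R := -T^2 - X + T^2*X + X^3 + T*X^3 - X^4 - T*X^4 + X^6 + T*X^6 - X^7 - T*X^7 + X^9
def G2 (T X : R) : R := X + T*X - X^3 + T*X^3 - X^4 - T*X^4 + X^6

lemma id1 (T X : R) (h3 : (3 : R) = 0) (hT : T ^ 3 - T + 1 = 0) :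
    (-1) * (pb T X * (pa T X ^ 2 - pb T X ^ 2)) = F1 X * G1 X := by
  unfold pa pb F1 G1
  linear_combination (-X + 2*T*X + X^2 - T^2*X^2 + 3*X^3 - 4*T*X^3 - T^2*X^3 - X^4 - 2*T*X^4 - 2*T^2*X^4 - 6*X^5 + T*X^5 + 8*T^2*X^5 - 2*X^6 + 4*T*X^6 + 5*T^2*X^6 + 3*X^7 + 5*T*X^7 - 5*T^2*X^7 + 8*X^8 - 3*T*X^8 - 6*T^2*X^8 - 5*X^9 + 2*T*X^9 - 2*T^2*X^9 - 3*X^10 + 2*T*X^10 - T^2*X^10 - 2*T*X^11 + 3*T^2*X^11 + 4*X^12 - 2*X^13 - 3*T*X^13 + T^2*X^13 + X^14 + T^2*X^14 - X^15 + T*X^15 - T^2*X^15) * h3 + (4*X - 2*T*X - 3*X^2 - 2*T*X^2 + T^2*X^2 - 9*X^3 + 2*T*X^3 + T^2*X^3 + 3*X^4 + 4*T*X^4 + 16*X^5 + 15*T*X^5 - 3*T^2*X^5 + 6*X^6 - 5*T*X^6 - 7*T^2*X^6 + T^3*X^6 - 7*X^7 - 22*T*X^7 - 3*T^2*X^7 + T^3*X^7 - 26*X^8 - 16*T*X^8 + T^3*X^8 + 16*X^9 + 13*T*X^9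 + 16*T^2*X^9 + T^3*X^9 + 11*X^10 + 4*T*X^10 + 3*T^2*X^10 - 3*T^3*X^10 - 2*X^11 - 4*T^2*X^11 - T^3*X^11 - 12*X^12 - 9*T*X^12 - 6*T^2*X^12 - 2*T^3*X^12 + 4*X^13 + 13*T*X^13 + 6*T^2*X^13 + 2*T^3*X^13 - 3*X^14 - 3*T*X^14 - 6*T^2*X^14 + 2*X^15 - T*X^15 + 2*T^2*X^15) * hT

lemma id2 (T X : R) (h3 : (3 : R) = 0) (hT : T ^ 3 - T + 1 = 0) :
    (-1 + T + T ^ 2) * (pa T X * (pa T X ^ 2 - pb T X ^ 2)) = F2 T X * G2 T X := by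
  unfold pa pb F2 G2
  linear_combination (-X - T*X + T^2*X - 2*X^2 - T*X^2 + 4*T^2*X^2 + X^3 + 2*T*X^3 + 5*T^2*X^3 + 12*X^4 + 11*X^5 - 6*T*X^5 - 5*T^2*X^5 - 9*T*X^6 - 7*T^2*X^6 - 7*X^7 - 6*T*X^7 - 4*T^2*X^7 - 4*X^8 + 3*T*X^8 - 7*X^9 + 11*T*X^9 + 3*T^2*X^9 - 4*X^10 + 2*T*X^10 + 2*T^2*X^10 + X^11 - 4*T*X^11 - 3*T^2*X^11 + X^12 + 3*T*X^12 + 3*T^2*X^12 + X^13 - 4*T*X^13 + T^2*X^13 + X^14 + T^2*X^14 - X^15 + T*X^15 - T^2*X^15) * h3 + (3*X + 6*T*X + 2*T^2*X - 2*T^3*X + 7*X^2 + 8*T*X^2 - 10*T^2*X^2 - 7*T^3*X^2 + 3*T^4*X^2 - 4*X^3 - 12*T*X^3 - 25*T^2*X^3 - 2*T^3*X^3 + 8*T^4*X^3 - T^5*X^3 - 38*X^4 - 35*T*X^4 - 23*T^2*X^4 + 13*T^3*X^4 + 12*T^4*X^4 - 3*T^5*X^4 - 30*X^5 - 9*T*X^5 + 6*T^2*X^5 + 35*T^3*X^5 + 14*T^4*X^5 - 6*T^5*X^5 - 2*X^6 + 24*T*X^6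 + 51*T^2*X^6 + 45*T^3*X^6 - 3*T^4*X^6 - 10*T^5*X^6 + 19*X^7 + 36*T*X^7 + 48*T^2*X^7 + 15*T^3*X^7 - 20*T^4*X^7 - 9*T^5*X^7 + 18*X^8 + 10*T*X^8 - 6*T^2*X^8 - 29*T^3*X^8 - 28*T^4*X^8 - 6*T^5*X^8 + 18*X^9 - 18*T*X^9 - 11*T^2*X^9 - 24*T^3*X^9 - 22*T^4*X^9 + 10*X^10 + 10*T*X^10 + 2*T^2*X^10 - 17*T^3*X^10 - 3*T^4*X^10 + 5*T^5*X^10 - X^11 + 9*T*X^11 + 4*T^2*X^11 + 4*T^3*X^11 + 8*T^4*X^11 + 3*T^5*X^11 - 4*X^12 - 20*T*X^12 - 14*T^2*X^12 - 2*T^3*X^12 + 4*T^4*X^12 + 2*T^5*X^12 - X^13 + 16*T*X^13 + 10*T^2*X^13 - 6*T^3*X^13 - 4*T^4*X^13 - 2*T^5*X^13 - 3*X^14 - 3*T*X^14 - 9*T^2*X^14 + 3*T^3*X^14 + 6*T^4*X^14 + 2*X^15 - T*X^15 + 2*T^2*X^15 + T^3*X^15 - 2*T^4*X^15) * hT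

lemma wr1 (X : R) (h3 : (3 : R) = 0) :
    (1 + 7*X^6 + 9*X^8) * G1 X - F1 X * (4*X^3 + 6*X^5) = -1 := by
  unfold F1 G1
  linear_combination (-X^4 - 4*X^6 - 3*X^8 + X^10 + 2*X^12 + X^14) * h3

lemma wr2 (T X : R) (h3 : (3 : R) = 0) (hT : T ^ 3 - T + 1 = 0) :
    (-1 + T^2 + 3*X^2 + 3*T*X^2 - 4*X^3 - 4*T*X^3 + 6*X^5 + 6*T*X^5 - 7*X^6 - 7*T*X^6 + 9*X^8) * G2 T X -
      F2 T X * (1 + T - 3*X^2 + 3*T*X^2 - 4*X^3 - 4*T*X^3 + 6*X^5) = -1 + T + T ^ 2 := by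
  unfold F2 G2
  linear_combination (-X^2 + T*X^2 - T^2*X^2 + 2*X^3 - 3*X^4 - 2*T*X^4 + 2*T^2*X^5 + 4*X^6 + 4*T*X^6 - 2*X^7 - 4*T*X^7 - 2*T^2*X^7 - 2*X^8 - T*X^8 + T^2*X^8 + 4*X^9 + 2*T*X^9 - 2*T^2*X^9 + X^10 + 2*T*X^10 + T^2*X^10 - 2*X^11 + 2*T*X^11 - 2*X^12 - 2*T*X^12 + X^14) * h3 + (1 + 3*X^2 - 6*X^3 + 3*X^4) * hT

end Pool.Agent.H881R3.L15
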